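import Pool.Agent.helper87.FM.Spec

/-! # Row fm:SMT (MP_abccb5_co): all small points -/

set_option autoImplicit false

namespace Pool.Agent.FM

open Polynomial Matrix Pool.Agent.helper42.NS Pool.Agent.FS

theorem SMT_exp {a : ℕ} (ha : 20 ≤ a) : 15 * a * 2 ^ a ≤ 2 ^ (2 ^ a) := by
  have h1 : a < 2 ^ a := Nat.lt_two_pow_self
  have h2 : 4 + (a + a) ≤ 2 ^ a := by
    have h3 : a - 1 < 2 ^ (a - 1) := Nat.lt_two_pow_self
    have h5 : 2 ^ 4 ≤ 2 ^ (a - 3) := Nat.pow_le_pow_right (by norm_num) (by omega)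
    have h6 : a - 3 < 2 ^ (a - 3) := Nat.lt_two_pow_self
    have h4 : 2 ^ a = 8 * 2 ^ (a - 3) := by
      have e : a = 3 + (a - 3) := by omega
      calc 2 ^ a = 2 ^ (3 + (a - 3)) := by rw [← e]
        _ = 8 * 2 ^ (a - 3) := by rw [pow_add]; norm_num
    omega
  calc 15 * a * 2 ^ a ≤ (2 ^ 4 * 2 ^ a) * 2 ^ a :=
        Nat.mul_le_mul_right _ (Nat.mul_le_mul (by norm_num) h1.le)
    _ = 2 ^ (4 + (a + a)) := by rw [pow_add, pow_add, mul_assoc]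
    _ ≤ 2 ^ (2 ^ a) := Nat.pow_le_pow_right (by norm_num) h2

theorem SMT_num {a k q : ℕ} (ha : 20 ≤ a) (hk : k ≤ a) (hq : 2 ≤ q) (hqa : q < 2 ^ a) :
    (1 / (q : ℝ) + 1 / 2 ^ (2 ^ a)) ^ k ≤ 15 / 14 * (1 / (q : ℝ) ^ k) := by
  have hq2 : (2 : ℝ) ≤ (q : ℝ) := by exact_mod_cast hq
  have hq0 : (0 : ℝ) < (q : ℝ) := by linarith
  have ha0 : (0 : ℝ) < (a : ℝ) := by
    have : 0 < a := by omega
    exact_mod_cast this
  have ha20 : (20 : ℝ) ≤ (a : ℝ) := by exact_mod_cast ha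
  have hk' : (k : ℝ) ≤ (a : ℝ) := by exact_mod_cast hk
  set x : ℝ := 1 / (15 * (a : ℝ)) with hx
  have hx0 : 0 < x := by positivity
  have hx1 : x ≤ 1 := by
    rw [hx, div_le_one (by positivity)]
    linarith
  have h2 : (1 : ℝ) / 2 ^ (2 ^ a) ≤ x * (1 / (q : ℝ)) := by
    have h3 : (15 * (a : ℝ)) * (q : ℝ) ≤ 2 ^ (2 ^ a) := by
      have h4 : (q : ℝ) ≤ 2 ^ a := by exact_mod_cast hqa.le
      have h5 : (15 * (a : ℝ)) * 2 ^ a ≤ 2 ^ (2 ^ a) := by exact_mod_cast SMT_exp ha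
      exact le_trans (mul_le_mul_of_nonneg_left h4 (by positivity)) h5
    rw [hx, div_mul_div_comm, one_mul]
    exact one_div_le_one_div_of_le (by positivity) h3
  have h3 : 1 / (q : ℝ) + 1 / 2 ^ (2 ^ a) ≤ (1 + x) * (1 / (q : ℝ)) := by
    have : (1 + x) * (1 / (q : ℝ)) = 1 / (q : ℝ) + x * (1 / (q : ℝ)) := by ring
    rw [this]
    linarith
  have h4 : (1 + x) ^ k ≤ 15 / 14 := by
    have hb : 1 + (k : ℝ) * (-x) ≤ (1 + -x) ^ k := one_add_mul_le_pow (by linarith) k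
    have hkx : (k : ℝ) * x ≤ 1 / 15 := by
      calc (k : ℝ) * x ≤ (a : ℝ) * x := mul_le_mul_of_nonneg_right hk' hx0.le
        _ = 1 / 15 := by
          rw [hx]
          field_simp
    have hb2 : (14 : ℝ) / 15 ≤ (1 + -x) ^ k := by linarith
    have hb3 : (1 + x) ^ k * (1 + -x) ^ k ≤ 1 := by
      rw [← mul_pow]
      refine pow_le_one₀ ?_ ?_
      · exact mul_nonneg (by linarith) (by linarith)
      · nlinarith
    have hb4 : 0 ≤ (1 + x) ^ k := by positivity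
    have hb5 : (1 + x) ^ k * (14 / 15) ≤ 1 := le_trans (mul_le_mul_of_nonneg_left hb2 hb4) hb3
    linarith
  calc (1 / (q : ℝ) + 1 / 2 ^ (2 ^ a)) ^ k ≤ ((1 + x) * (1 / (q : ℝ))) ^ k :=
        pow_le_pow_left₀ (by positivity) h3 _
    _ = (1 + x) ^ k * (1 / (q : ℝ) ^ k) := by rw [mul_pow, _root_.one_div_pow]
    _ ≤ 15 / 14 * (1 / (q : ℝ) ^ k) := mul_le_mul_of_nonneg_right h4 (by positivity)

theorem SMT_tail (j N : ℕ) (hj : 6 ≤ j) : ∑ q ∈ Finset.Ico (3 : ℕ) N, ((2 : ℝ) / (q : ℝ)) ^ j ≤ 1 := by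
  have h1 : ∀ q ∈ Finset.Ico 3 N, ((2 : ℝ) / (q : ℝ)) ^ j ≤ ((q : ℝ) ^ 2)⁻¹ := by
    intro q hq
    have hq3 := (Finset.mem_Ico.1 hq).1
    have hq3' : (3 : ℝ) ≤ (q : ℝ) := by exact_mod_cast hq3
    have hq0 : (0 : ℝ) < (q : ℝ) := by linarith
    set x : ℝ := 2 / (q : ℝ) with hx
    have hx0 : 0 ≤ x := by positivity
    have hx1 : x ≤ 2 / 3 := by
      rw [hx]
      exact div_le_div_of_nonneg_left (by norm_num) (by norm_num) hq3'
    have hx4 : x ^ 4 ≤ 1 / 4 := by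
      calc x ^ 4 ≤ (2 / 3) ^ 4 := pow_le_pow_left₀ hx0 hx1 4
        _ ≤ 1 / 4 := by norm_num
    calc x ^ j ≤ x ^ 6 := pow_le_pow_of_le_one hx0 (by linarith) hj
      _ = x ^ 2 * x ^ 4 := by ring
      _ ≤ x ^ 2 * (1 / 4) := mul_le_mul_of_nonneg_left hx4 (by positivity)
      _ = ((q : ℝ) ^ 2)⁻¹ := by
        rw [hx]
        field_simp
        norm_num
  refine (Finset.sum_le_sum h1).trans ?_
  have h2 : Finset.Ico 3 N ⊆ Finset.Ioc 1 (N + 1) := by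
    intro q hq
    rw [Finset.mem_Ico] at hq
    rw [Finset.mem_Ioc]
    omega
  refine (Finset.sum_le_sum_of_subset_of_nonneg h2 fun q _ _ => by positivity).trans ?_
  refine (sum_Ioc_inv_sq_le_sub (α := ℝ) (by norm_num) (by omega)).trans ?_
  have : (0 : ℝ) ≤ ((N + 1 : ℕ) : ℝ)⁻¹ := by positivity
  push_cast at this ⊢
  linarith

theorem SMT_sum (j a : ℕ) (ha : 20 ≤ a) (hj : 6 ≤ j) :
    ∑ q ∈ Finset.Ico (2 : ℕ) (2 ^ a), ((2 : ℝ) / (q : ℝ)) ^ j ≤ 2 := by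
  have h1 : 2 < 2 ^ a := by
    have : 2 ^ 2 ≤ 2 ^ a := Nat.pow_le_pow_right (by norm_num) (by omega)
    omega
  rw [Finset.sum_eq_sum_Ico_succ_bot h1]
  have h2 := SMT_tail j (2 ^ a) hj
  have h3 : ((2 : ℝ) / ((2 : ℕ) : ℝ)) ^ j = 1 := by norm_num
  rw [h3]
  linarith

theorem SMT_term {a k q : ℕ} (ha : 20 ≤ a) (hk0 : 2 ≤ k) (hk : k ≤ a) (hq : 2 ≤ q) (hqa : q < 2 ^ a) :
    (q : ℝ) * ((2 * (q : ℝ) + 3) * (1 / (q : ℝ) + 1 / 2 ^ (2 ^ a)) ^ k) * 2 ^ k ≤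
      15 * ((2 : ℝ) / (q : ℝ)) ^ (k - 2) := by
  have hq2 : (2 : ℝ) ≤ (q : ℝ) := by exact_mod_cast hq
  have hq0 : (0 : ℝ) < (q : ℝ) := by linarith
  obtain ⟨j, rfl⟩ : ∃ j, k = j + 2 := ⟨k - 2, by omega⟩
  have h1 := SMT_num ha hk hq hqa
  have h2 : 2 * (q : ℝ) + 3 ≤ 7 / 2 * (q : ℝ) := by linarith
  have h3 : (2 * (q : ℝ) + 3) * (1 / (q : ℝ) + 1 / 2 ^ (2 ^ a)) ^ (j + 2) ≤
      7 / 2 * (q : ℝ) * (15 / 14 * (1 / (q : ℝ) ^ (j + 2))) :=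
    mul_le_mul h2 h1 (by positivity) (by positivity)
  calc (q : ℝ) * ((2 * (q : ℝ) + 3) * (1 / (q : ℝ) + 1 / 2 ^ (2 ^ a)) ^ (j + 2)) * 2 ^ (j + 2)
      ≤ (q : ℝ) * (7 / 2 * (q : ℝ) * (15 / 14 * (1 / (q : ℝ) ^ (j + 2)))) * 2 ^ (j + 2) :=
        mul_le_mul_of_nonneg_right (mul_le_mul_of_nonneg_left h3 hq0.le) (by positivity)
    _ = 15 * ((2 : ℝ) / (q : ℝ)) ^ (j + 2 - 2) := by
        rw [Nat.add_sub_cancel, div_pow, pow_add (q : ℝ) j 2, pow_add (2 : ℝ) j 2]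
        field_simp
        ring

theorem SMT (h1 : SPE_stmt) (h2 : SKL_stmt) : SMT_stmt := by
  classical
  intro a m k ha hk0 hk hm1 hm2
  have hq2 : ∀ P : Pt, 2 ≤ qP P := by
    intro P
    obtain ⟨_, p, hp, _, _, d, hd, he⟩ := FIN P
    rw [he]
    exact hp.two_le.trans (Nat.le_self_pow hd.ne' p)
  -- the points with a given number of elements of the residue field
  have hS : ∀ q : ℕ, ∃ S : Finset Pt, (∀ P, P ∈ S ↔ qP P = q) ∧ S.card ≤ q := by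
    intro q
    refine STP_fin (fun P : Pt => qP P = q) q ?_
    intro s hs
    rcases Nat.eq_zero_or_pos q with h0 | h0
    · have h5 : s = ∅ := by
        rw [Finset.eq_empty_iff_forall_notMem]
        intro P hP
        have h6 := hs P hP
        have h7 := hq2 P
        omega
      rw [h5, Finset.card_empty]
      omega
    · exact CNQ FIN q s h0 hs
  choose S hS1 hS2 using hS
  have hR2 : ∀ H : Matrix (Fin m) (Fin m) ℤ, Hered (W1 a) m H → R2 a H := by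
    intro H hH
    refine ((ST3_hered hH).2 (le_trans ?_ hm1)).2
    exact Nat.pow_le_pow_right (by norm_num) (by omega)
  obtain ⟨F, hF⟩ : ∃ F : Pt → Matrix (Fin m) (Fin m) ℤ → Set (Matrix (Fin m) (Fin m) ℤ × (Fin k → Fin m → Bool)),
      F = fun P H => (fun B => (H, B)) '' {B : Fin k → Fin m → Bool | Bad P H B} := ⟨_, rfl⟩
  have hFc : ∀ P H, (F P H).ncard = Set.ncard {B : Fin k → Fin m → Bool | Bad P H B} := by
    intro P H
    rw [hF]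
    refine Set.ncard_image_of_injective _ ?_
    intro B B' h
    exact (Prod.mk.inj h).2
  have hsub : {HB : Matrix (Fin m) (Fin m) ℤ × (Fin k → Fin m → Bool) | IsGr HB.1 ∧
      Hered (W1 a) m HB.1 ∧ ∃ P : Pt, qP P < 2 ^ a ∧ Bad P HB.1 HB.2} ⊆
      ⋃ q ∈ Finset.Ico 2 (2 ^ a), ⋃ P ∈ S q, ⋃ H ∈ POT_s (W1 a) m, F P H := by
    rintro ⟨H, B⟩ ⟨hG, hH, P, hP, hB⟩
    simp only [Set.mem_iUnion]
    refine ⟨qP P, Finset.mem_Ico.2 ⟨hq2 P, hP⟩, P, (hS1 _ P).2 rfl, H, POT_mem.2 ⟨hG, hH⟩, ?_⟩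
    rw [hF]
    exact ⟨B, hB, rfl⟩
  have hfin : (⋃ q ∈ Finset.Ico 2 (2 ^ a), ⋃ P ∈ S q, ⋃ H ∈ POT_s (W1 a) m, F P H).Finite := by
    refine (CXF m k).1.subset ?_
    intro HB h
    simp only [Set.mem_iUnion] at h
    obtain ⟨q, hq, P, hP, H, hH, hB⟩ := h
    rw [hF] at hB
    obtain ⟨B, _, rfl⟩ := hB
    exact (POT_mem.1 hH).1
  have hcnt : Set.ncard {HB : Matrix (Fin m) (Fin m) ℤ × (Fin k → Fin m → Bool) | IsGr HB.1 ∧
      Hered (W1 a) m HB.1 ∧ ∃ P : Pt, qP P < 2 ^ a ∧ Bad P HB.1 HB.2} ≤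
      ∑ q ∈ Finset.Ico 2 (2 ^ a), ∑ P ∈ S q, ∑ H ∈ POT_s (W1 a) m,
        Set.ncard {B : Fin k → Fin m → Bool | Bad P H B} := by
    refine (Set.ncard_le_ncard hsub hfin).trans ?_
    refine (Finset.set_ncard_biUnion_le _ _).trans ?_
    refine Finset.sum_le_sum fun q _ => ?_
    refine (Finset.set_ncard_biUnion_le _ _).trans ?_
    refine Finset.sum_le_sum fun P _ => ?_
    refine (Finset.set_ncard_biUnion_le _ _).trans ?_
    exact Finset.sum_le_sum fun H _ => (hFc P H).le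
  obtain ⟨C, hC⟩ : ∃ C : ℝ, C = 2 ^ (m.choose 2) * 2 ^ (m * k) := ⟨_, rfl⟩
  have hC0 : 0 ≤ C := by
    rw [hC]
    positivity
  -- one point
  have hP1 : ∀ P : Pt, qP P < 2 ^ a → (∑ H ∈ POT_s (W1 a) m,
      (Set.ncard {B : Fin k → Fin m → Bool | Bad P H B} : ℝ)) ≤
      C * ((2 * (qP P : ℝ) + 3) * (1 / (qP P : ℝ) + 1 / 2 ^ (2 ^ a)) ^ k) := by
    intro P hP
    have h3 : ∀ H ∈ POT_s (W1 a) m, (Set.ncard {B : Fin k → Fin m → Bool | Bad P H B} : ℝ) ≤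
        (2 ^ (m * k) * (1 / (qP P : ℝ) + 1 / 2 ^ (2 ^ a)) ^ k) * (qP P : ℝ) ^ crk P H := by
      intro H hH
      refine (h2 a m k P H ha (hR2 H (POT_mem.1 hH).2) hP).trans (le_of_eq ?_)
      ring
    refine (Finset.sum_le_sum h3).trans ?_
    rw [← Finset.mul_sum]
    refine (mul_le_mul_of_nonneg_left (h1 a m P ha hm1 hm2 hP) (by positivity)).trans (le_of_eq ?_)
    rw [hC]
    ring
  -- one value of `q`
  have hq1 : ∀ q ∈ Finset.Ico 2 (2 ^ a), (∑ P ∈ S q, ∑ H ∈ POT_s (W1 a) m,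
      (Set.ncard {B : Fin k → Fin m → Bool | Bad P H B} : ℝ)) * 2 ^ k ≤
      C * (15 * ((2 : ℝ) / (q : ℝ)) ^ (k - 2)) := by
    intro q hq
    obtain ⟨hqa, hqb⟩ := Finset.mem_Ico.1 hq
    have h3 : ∀ P ∈ S q, (∑ H ∈ POT_s (W1 a) m,
        (Set.ncard {B : Fin k → Fin m → Bool | Bad P H B} : ℝ)) ≤
        C * ((2 * (q : ℝ) + 3) * (1 / (q : ℝ) + 1 / 2 ^ (2 ^ a)) ^ k) := by
      intro P hP
      have h6 := (hS1 q P).1 hP
      have h7 := hP1 P (by omega)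
      rw [h6] at h7
      exact h7
    have h4 : (∑ P ∈ S q, ∑ H ∈ POT_s (W1 a) m,
        (Set.ncard {B : Fin k → Fin m → Bool | Bad P H B} : ℝ)) ≤
        C * ((q : ℝ) * ((2 * (q : ℝ) + 3) * (1 / (q : ℝ) + 1 / 2 ^ (2 ^ a)) ^ k)) := by
      refine (Finset.sum_le_sum h3).trans ?_
      rw [Finset.sum_const, nsmul_eq_mul]
      have h5 : ((S q).card : ℝ) ≤ (q : ℝ) := by exact_mod_cast hS2 q
      refine (mul_le_mul_of_nonneg_right h5 (by positivity)).trans (le_of_eq ?_)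
      ring
    refine (mul_le_mul_of_nonneg_right h4 (by positivity)).trans ?_
    rw [mul_assoc]
    exact mul_le_mul_of_nonneg_left (SMT_term ha (by omega) hk hqa hqb) hC0
  have hcnt' : (Set.ncard {HB : Matrix (Fin m) (Fin m) ℤ × (Fin k → Fin m → Bool) | IsGr HB.1 ∧
      Hered (W1 a) m HB.1 ∧ ∃ P : Pt, qP P < 2 ^ a ∧ Bad P HB.1 HB.2} : ℝ) ≤
      ∑ q ∈ Finset.Ico 2 (2 ^ a), ∑ P ∈ S q, ∑ H ∈ POT_s (W1 a) m,
        (Set.ncard {B : Fin k → Fin m → Bool | Bad P H B} : ℝ) := by exact_mod_cast hcnt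
  have h8 : (Set.ncard {HB : Matrix (Fin m) (Fin m) ℤ × (Fin k → Fin m → Bool) | IsGr HB.1 ∧
      Hered (W1 a) m HB.1 ∧ ∃ P : Pt, qP P < 2 ^ a ∧ Bad P HB.1 HB.2} : ℝ) * 2 ^ k ≤
      31 * 2 ^ (m.choose 2 + k * m) := by
    refine (mul_le_mul_of_nonneg_right hcnt' (by positivity)).trans ?_
    rw [Finset.sum_mul]
    refine (Finset.sum_le_sum hq1).trans ?_
    rw [← Finset.mul_sum, ← Finset.mul_sum]
    have h9 := SMT_sum (k - 2) a ha (by omega)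
    have h10 : C * (15 * ∑ q ∈ Finset.Ico (2 : ℕ) (2 ^ a), ((2 : ℝ) / (q : ℝ)) ^ (k - 2)) ≤ C * 31 :=
      mul_le_mul_of_nonneg_left (by linarith) hC0
    refine h10.trans (le_of_eq ?_)
    rw [hC, pow_add, mul_comm k m]
    ring
  exact_mod_cast h8

end Pool.Agent.FM
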